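import Pool.Agent.Y149.CR.Main
import Pool.Agent.Y677.SM.NF

/-!
# The Chow motives `h¹(E) ⊗ ρ`: all modular elliptic curves and all Artin representations of `ℚ`

Let `E` be an elliptic curve over `ℚ` and `ρ` an irreducible Artin representation of `ℚ` of degree `n`,
that is, a representation of `Gal(ℚ̄/ℚ)` on `ℂⁿ` which is trivial on an open subgroup.  The L-function
`L(E ⊗ ρ, s)` of `H¹(E) ⊗ ρ` is expected to be entire, without zeros on the line `Re s = 3/2`, the edge of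
the half plane of absolute convergence.  For `n ≤ 2` this is known in most cases by the Rankin-Selberg
method and the modularity of `ρ`; for `n ≥ 3` not even the continuation to a neighbourhood of this line
is known in general.

The theorem is about the zeros and the poles on this line for all modular elliptic curves over `ℚ`
(by the modularity theorem these are all elliptic curves over `ℚ`).

1. If `n ≥ 3`, or the character of `ρ` is not real, or `τ ≠ 0`, then `L(E ⊗ ρ, s)` has neither a zero nor a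
pole at the point `3/2 + iτ`, as far as it has a meromorphic continuation to a neighbourhood of it; and
without any continuation `log |L(E ⊗ ρ, 3/2 + iτ + ε)| / log(1/ε)` is at most `c + o(1)` in absolute value
with an explicit constant `c < 1`.
2. The remaining pairs `(E, ρ)` with a zero or a pole at `3/2` form a partial matching: to every `E`
there belongs at most one `ρ`, and to every `ρ` at most one isogeny class of curves `E` with a pole and
at most one with a zero; and these zeros and poles are simple.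
3. There is a joint Bessel inequality for all curves, all heights `τ` and all virtual Artin
representations.

Proof.  Up to `o(log(1/ε))`, `log |L(E ⊗ ρ, 3/2 + iτ + ε)|` is the sum of
`p^{-1-ε} t_p Re(p^{-iτ} χ(Frob_p⁻¹))`, `t_p = a_p / √p`.  The Rankin-Selberg method gives the mean square
`1` of `t_p`, and one-sided bounds for the correlations of `t_p(E_i) p^{-iτ_i}` and `t_p(E_j) p^{-iτ_j}`.
(Library of the projects Y677, Y722 and Y149.)
-/

set_option autoImplicit false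
set_option linter.unusedSectionVars false

namespace Pool.Agent.Results.MP_148101_nt.ArtinTwistsOfModularCurves

open NumberField IsDedekindDomain Filter Topology Polynomial CongruenceSubgroup
open scoped MatrixGroups

/-- The number of solutions of the affine Weierstrass equation of `V` with coordinates in `R`. -/
noncomputable def affineCount {R : Type} [CommRing R] (V : WeierstrassCurve R) : ℕ :=
  Nat.card {P : R × R // P.2 ^ 2 + V.a₁ * P.1 * P.2 + V.a₃ * P.2 =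
    P.1 ^ 3 + V.a₂ * P.1 ^ 2 + V.a₄ * P.1 + V.a₆}

/-- `a_v = q_v + 1 - #E(k_v)`, `k_v` the residue field of `v` and `q_v` its number of elements; there is
one point at infinity. -/
noncomputable def frobTrace (W : WeierstrassCurve (𝓞 ℚ)) (v : HeightOneSpectrum (𝓞 ℚ)) : ℤ :=
  (Ideal.absNorm v.asIdeal : ℤ) + 1 - ((affineCount (W.map (Ideal.Quotient.mk v.asIdeal)) : ℤ) + 1)

/-- The Fourier coefficients of a cusp form. -/
noncomputable def coefficient {N : ℕ} (f : CuspForm (Gamma0 N : Subgroup (GL (Fin 2) ℝ)) 2)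
    (n : ℕ) : ℂ := (UpperHalfPlane.qExpansion 1 f).coeff n

/-- `f` is a normalised cusp form of weight two on `Γ₀(N)` with the properties of the newform of the
elliptic curve with the integral Weierstrass equation `W`: real Fourier coefficients `c(n)`, `c(1) = 1`,
the Hecke relations, the bounds `|c(p)| ≤ 2 √p` for primes `p ∤ N` and `|c(p)| ≤ 1` for `p ∣ N`, and
`c(q_v) = a_v` for all but finitely many primes `v`. -/
structure IsNewformOf {N : ℕ} (f : CuspForm (Gamma0 N : Subgroup (GL (Fin 2) ℝ)) 2)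
    (W : WeierstrassCurve (𝓞 ℚ)) : Prop where
  one : coefficient f 1 = 1
  real : ∀ n, (coefficient f n).im = 0
  mul : ∀ m n : ℕ, Nat.Coprime m n → coefficient f (m * n) = coefficient f m * coefficient f n
  pow : ∀ p j : ℕ, p.Prime → coefficient f (p ^ (j + 2)) =
    coefficient f p * coefficient f (p ^ (j + 1)) -
      (if p ∣ N then 0 else (p : ℂ) * coefficient f (p ^ j))
  good : ∀ p : ℕ, p.Prime → ¬ p ∣ N → ‖coefficient f p‖ ≤ 2 * Real.sqrt p
  bad : ∀ p : ℕ, p.Prime → p ∣ N → ‖coefficient f p‖ ≤ 1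
  trace : ∀ᶠ v : HeightOneSpectrum (𝓞 ℚ) in cofinite,
    coefficient f (Ideal.absNorm v.asIdeal) = (frobTrace W v : ℂ)

/-- The elliptic curve with the integral Weierstrass equation `W` is modular. -/
def IsModular (W : WeierstrassCurve (𝓞 ℚ)) : Prop :=
  ∃ (N : ℕ) (_ : NeZero N) (f : CuspForm (Gamma0 N : Subgroup (GL (Fin 2) ℝ)) 2), IsNewformOf f W

/-- For infinitely many primes `v` the traces of Frobenius are different; by the theorem of Faltings
this means that the elliptic curves are not isogenous over `ℚ`. -/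
def NotIsogenous (W W' : WeierstrassCurve (𝓞 ℚ)) : Prop :=
  {v : HeightOneSpectrum (𝓞 ℚ) | frobTrace W v ≠ frobTrace W' v}.Infinite

/-- `σ` is a Frobenius element at the prime `v` of `ℚ`: there is a maximal ideal `Q` above `v` of the
ring of all algebraic integers with `σ x ≡ x ^ q_v` modulo `Q` for all `x`. -/
def IsFrobenius (v : HeightOneSpectrum (𝓞 ℚ)) (σ : Gal(AlgebraicClosure ℚ/ℚ)) : Prop :=
  ∃ Q : Ideal (𝓞 (AlgebraicClosure ℚ)), Q.IsMaximal ∧
    Q.comap (algebraMap (𝓞 ℚ) (𝓞 (AlgebraicClosure ℚ))) = v.asIdeal ∧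
    ∀ x : 𝓞 (AlgebraicClosure ℚ), σ • x - x ^ Ideal.absNorm v.asIdeal ∈ Q

/-- `ρ` is an Artin representation of `ℚ`: it is trivial on an open subgroup of `Gal(ℚ̄/ℚ)`. -/
def IsArtin {n : ℕ} (ρ : Representation ℂ Gal(AlgebraicClosure ℚ/ℚ) (Fin n → ℂ)) : Prop :=
  ∃ U : Subgroup Gal(AlgebraicClosure ℚ/ℚ), IsOpen (U : Set Gal(AlgebraicClosure ℚ/ℚ)) ∧
    ∀ u ∈ U, ρ u = 1

/-- The polynomials `B v` are the Euler factors of `E ⊗ ρ` at all but finitely many primes `v`: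
`B_v(z) = det(1 - a_v z ρ(Frob_v⁻¹) + q_v z² ρ(Frob_v⁻¹)²)`; and no `B_v` is zero at a point `q_v^{-s}` with
`Re s = 3/2`. -/
def IsEulerFactor (W : WeierstrassCurve (𝓞 ℚ)) {n : ℕ}
    (ρ : Representation ℂ Gal(AlgebraicClosure ℚ/ℚ) (Fin n → ℂ))
    (B : HeightOneSpectrum (𝓞 ℚ) → ℂ[X]) : Prop :=
  (∀ᶠ v in cofinite, ∀ σ : Gal(AlgebraicClosure ℚ/ℚ), IsFrobenius v σ → ∀ z : ℂ,
    (B v).eval z = LinearMap.det (1 - ((frobTrace W v : ℂ) * z) • ρ σ⁻¹ +
      ((Ideal.absNorm v.asIdeal : ℂ) * z ^ 2) • (ρ σ⁻¹) ^ 2)) ∧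
  ∀ (τ : ℝ) (v : HeightOneSpectrum (𝓞 ℚ)),
    (B v).eval ((Ideal.absNorm v.asIdeal : ℂ) ^ (-(3 / 2 + τ * Complex.I : ℂ))) ≠ 0

/-- The Euler product `∏_v B_v(q_v^{-s})⁻¹`. -/
noncomputable def eulerProduct (B : HeightOneSpectrum (𝓞 ℚ) → ℂ[X]) (s : ℂ) : ℂ :=
  ∏' v : HeightOneSpectrum (𝓞 ℚ), ((B v).eval ((Ideal.absNorm v.asIdeal : ℂ) ^ (-s)))⁻¹

/-- `log |L(E ⊗ ρ, 3/2 + iτ + ε)| / log (1/ε)`; for a function with a meromorphic continuation of order
`m` at `3/2 + iτ` it tends to `-m` as `ε → 0+`. -/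
noncomputable def size (B : HeightOneSpectrum (𝓞 ℚ) → ℂ[X]) (τ ε : ℝ) : ℝ :=
  Real.log ‖eulerProduct B (3 / 2 + τ * Complex.I + ε)‖ / Real.log (1 / ε)

/-- The Euler product has a meromorphic continuation to a neighbourhood of `3/2 + iτ`, of order `m` at
`3/2 + iτ` (`m < 0` for a pole, `m > 0` for a zero). -/
def HasOrder (B : HeightOneSpectrum (𝓞 ℚ) → ℂ[X]) (τ : ℝ) (m : ℤ) : Prop :=
  ∃ Λ : ℂ → ℂ, MeromorphicAt Λ (3 / 2 + τ * Complex.I) ∧
    (∀ᶠ s in 𝓝 ((3 / 2 : ℂ) + τ * Complex.I), (3 / 2 : ℝ) < s.re → Λ s = eulerProduct B s) ∧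
    meromorphicOrderAt Λ (3 / 2 + τ * Complex.I) = m

section
variable {ι : Type}

/-- **No zeros and no poles for representations of degree at least three.**  Let `ρ` be an irreducible
Artin representation of degree `n` and `x(ε) = log |L(E_i ⊗ ρ, 3/2 + iτ + ε)| / log(1/ε)`.
* `L(E_i ⊗ ρ, 3/2 + iτ + ε) ≠ 0` for small `ε > 0`.
* If `τ ≠ 0` or the character of `ρ` is not real, then `|x(ε)| ≤ 1 / √2 + o(1)`.
* If `n ≥ 3`, `τ = 0` and `ρ` is trivial on the open normal subgroup `U` of index `g`, then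
`|x(ε)| ≤ 1 - (n - 2)² / (2 g) + o(1)`.
* In both cases `L(E_i ⊗ ρ, s)` has the order `0` at `3/2 + iτ`, if it has a meromorphic continuation to a
neighbourhood of this point. -/
def HighDegree (W : ι → WeierstrassCurve (𝓞 ℚ)) : Prop :=
  ∀ (i : ι) (n : ℕ) (ρ : Representation ℂ Gal(AlgebraicClosure ℚ/ℚ) (Fin n → ℂ))
    (B : HeightOneSpectrum (𝓞 ℚ) → ℂ[X]), IsArtin ρ → ρ.IsIrreducible →
    IsEulerFactor (W i) ρ B → ∀ τ : ℝ,
      (∀ᶠ ε : ℝ in 𝓝[>] 0, eulerProduct B (3 / 2 + τ * Complex.I + ε) ≠ 0) ∧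
      ((τ ≠ 0 ∨ ∃ g, (ρ.character g).im ≠ 0) → ∀ η : ℝ, 0 < η → ∀ᶠ ε : ℝ in 𝓝[>] 0,
        |size B τ ε| ≤ 1 / Real.sqrt 2 + η) ∧
      (τ = 0 → 3 ≤ n → ∀ U : Subgroup Gal(AlgebraicClosure ℚ/ℚ), U.Normal →
        IsOpen (U : Set Gal(AlgebraicClosure ℚ/ℚ)) → (∀ u ∈ U, ρ u = 1) →
        ∀ η : ℝ, 0 < η → ∀ᶠ ε : ℝ in 𝓝[>] 0,
          |size B τ ε| ≤
            1 - ((n : ℝ) - 2) ^ 2 / (2 * Nat.card (Gal(AlgebraicClosure ℚ/ℚ) ⧸ U)) + η) ∧
      ((τ ≠ 0 ∨ (∃ g, (ρ.character g).im ≠ 0) ∨ 3 ≤ n) → ∀ m : ℤ, HasOrder B τ m → m = 0)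

/-- **A partial matching.**
* For one curve `E_i` and irreducible Artin representations `ρ_k` with heights `τ_k`, inequivalent for
equal heights, `∑_k x_k(ε)² ≤ 1 + o(1)` for `x_k(ε) = log |L(E_i ⊗ ρ_k, 3/2 + iτ_k + ε)| / log(1/ε)`, and for the
orders `m_k` at the points `3/2 + iτ_k`, if they exist, `∑_k |m_k| ≤ 1`.
* For one irreducible Artin representation `ρ` and a set `T` of pairs `(i, τ)` for which `L(E_i ⊗ ρ, s)`
has a continuation to a neighbourhood of `3/2 + iτ`, of order `m(i, τ)` there: `|m(i, τ)| ≤ 1`, and there is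
at most one pole and at most one zero, `{(i, τ) ∈ T | m(i, τ) < 0}` and `{(i, τ) ∈ T | m(i, τ) > 0}` have at
most one member. -/
def PartialMatching (W : ι → WeierstrassCurve (𝓞 ℚ)) : Prop :=
  (∀ (i : ι) (κ : Type) [Fintype κ] (n : κ → ℕ)
    (ρ : ∀ k, Representation ℂ Gal(AlgebraicClosure ℚ/ℚ) (Fin (n k) → ℂ)) (τ : κ → ℝ)
    (B : κ → HeightOneSpectrum (𝓞 ℚ) → ℂ[X]), (∀ k, IsArtin (ρ k)) →
    (∀ k, (ρ k).IsIrreducible) →
    (∀ k l, k ≠ l → τ k = τ l → IsEmpty ((ρ k).Equiv (ρ l))) →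
    (∀ k, IsEulerFactor (W i) (ρ k) (B k)) →
      (∀ η : ℝ, 0 < η → ∀ᶠ ε : ℝ in 𝓝[>] 0, ∑ k, size (B k) (τ k) ε ^ 2 ≤ 1 + η) ∧
      ∀ m : κ → ℤ, (∀ k, HasOrder (B k) (τ k) (m k)) → ∑ k, |m k| ≤ 1) ∧
  ∀ (n : ℕ) (ρ : Representation ℂ Gal(AlgebraicClosure ℚ/ℚ) (Fin n → ℂ))
    (B : ι → HeightOneSpectrum (𝓞 ℚ) → ℂ[X]), IsArtin ρ → ρ.IsIrreducible →
    (∀ i, IsEulerFactor (W i) ρ (B i)) →
    ∀ (T : Set (ι × ℝ)) (m : ι × ℝ → ℤ), (∀ x ∈ T, HasOrder (B x.1) x.2 (m x)) →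
      (∀ x ∈ T, |m x| ≤ 1) ∧ {x ∈ T | m x < 0}.Subsingleton ∧ {x ∈ T | 0 < m x}.Subsingleton

/-- **The joint Bessel inequality.**  Let `ρ_k` be finitely many Artin representations and
`x(i, τ, k) = log |L(E_i ⊗ ρ_k, 3/2 + iτ + ε)| / log(1/ε)`.  For every finite set `S` of pairs `(i, τ)` and all
real `c_k`, uniformly for bounded `c_k`,
`∑_{(i, τ) ∈ S} max(∑_k c_k x(i, τ, k), 0)² ≤ ∑_k ∑_l c_k c_l dim Hom(ρ_k, ρ_l) + o(1)` as `ε → 0+`, and the
same holds for the orders at the points `3/2 + iτ`, if they exist. -/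
def JointInequality (W : ι → WeierstrassCurve (𝓞 ℚ)) : Prop :=
  ∀ (κ : Type) [Fintype κ] (n : κ → ℕ)
    (ρ : ∀ k, Representation ℂ Gal(AlgebraicClosure ℚ/ℚ) (Fin (n k) → ℂ))
    (B : ι → κ → HeightOneSpectrum (𝓞 ℚ) → ℂ[X]), (∀ k, IsArtin (ρ k)) →
    (∀ i k, IsEulerFactor (W i) (ρ k) (B i k)) → ∀ S : Finset (ι × ℝ),
      (∀ C η : ℝ, 0 < η → ∀ᶠ ε : ℝ in 𝓝[>] 0, ∀ c : κ → ℝ, (∀ k, |c k| ≤ C) →
        ∑ s ∈ S, (max (∑ k, c k * size (B s.1 k) s.2 ε) 0) ^ 2 ≤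
          ∑ k, ∑ l, (c k * c l) * (Module.finrank ℂ ((ρ k).IntertwiningMap (ρ l)) : ℝ) + η) ∧
      ∀ m : ι × ℝ → κ → ℤ, (∀ s ∈ S, ∀ k, HasOrder (B s.1 k) s.2 (m s k)) → ∀ c : κ → ℝ,
        ∑ s ∈ S, (max (∑ k, c k * m s k) 0) ^ 2 ≤
          ∑ k, ∑ l, (c k * c l) * (Module.finrank ℂ ((ρ k).IntertwiningMap (ρ l)) : ℝ)

end

section aux

theorem half : (((1 / 2 : ℝ) : ℂ) + 1) = 3 / 2 := by
  push_cast
  norm_num

theorem orders {B : HeightOneSpectrum (𝓞 ℚ) → ℂ[X]} {τ : ℝ}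
    (h : ∀ᶠ ε : ℝ in 𝓝[>] 0, eulerProduct B (3 / 2 + τ * Complex.I + ε) ≠ 0) {m : ℤ}
    (hm : HasOrder B τ m) : Tendsto (size B τ) (𝓝[>] 0) (𝓝 (-(m : ℝ))) := by
  obtain ⟨Λ, h1, h2, h3⟩ := hm
  have hev : ∀ᶠ ε : ℝ in 𝓝[>] 0, Λ (3 / 2 + τ * Complex.I + ε) =
      eulerProduct B (3 / 2 + τ * Complex.I + ε) := by
    filter_upwards [(Pool.Agent.H341R2.path_tendsto' (3 / 2 + τ * Complex.I)).eventually h2,
      self_mem_nhdsWithin] with ε h1 h2
    have hε : (0 : ℝ) < ε := h2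
    exact h1 (by simp; linarith)
  have hne : ∀ᶠ ε : ℝ in 𝓝[>] 0, Λ (3 / 2 + τ * Complex.I + ε) ≠ 0 := by
    filter_upwards [hev, h] with ε h5 h6
    rw [h5]
    exact h6
  obtain ⟨m', h3', h4⟩ := Pool.Agent.W540.BE.order_of_size h1 hne
  rw [h3] at h3'
  have h5 : m = m' := by exact_mod_cast h3'
  subst h5
  refine h4.congr' ?_
  filter_upwards [hev] with ε h5
  rw [h5]
  rfl

/-- from the sizes to the orders -/
theorem to_orders {A κ : Type*} [Fintype κ] (S : Finset A) (x : A → κ → ℝ → ℝ)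
    (m : A → κ → ℤ) (Q : (κ → ℝ) → ℝ)
    (h : ∀ (C η : ℝ), 0 < η → ∀ᶠ ε : ℝ in 𝓝[>] 0, ∀ c : κ → ℝ, (∀ k, |c k| ≤ C) →
      ∑ s ∈ S, (max (∑ k, c k * x s k ε) 0) ^ 2 ≤ Q c + η)
    (hm : ∀ s ∈ S, ∀ k, Tendsto (x s k) (𝓝[>] 0) (𝓝 (-(m s k : ℝ)))) (hQ : ∀ c, Q (-c) = Q c)
    (c : κ → ℝ) : ∑ s ∈ S, (max (∑ k, c k * m s k) 0) ^ 2 ≤ Q c := by
  refine le_of_forall_pos_le_add fun η hη => ?_
  have hcont : Continuous fun y : ℝ => (max y 0) ^ 2 := by fun_prop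
  have hlim : Tendsto (fun ε : ℝ => ∑ s ∈ S, (max (∑ k, (-c) k * x s k ε) 0) ^ 2) (𝓝[>] 0)
      (𝓝 (∑ s ∈ S, (max (∑ k, (-c) k * (-(m s k : ℝ))) 0) ^ 2)) :=
    tendsto_finsetSum _ fun s hs => ((hcont.tendsto _).comp
      (tendsto_finsetSum _ fun k _ => (hm s hs k).const_mul ((-c) k)))
  simp only [Pi.neg_apply, neg_mul_neg] at hlim
  refine le_of_tendsto hlim ?_
  filter_upwards [h (∑ k, |c k|) η hη] with ε h4
  have h5 := h4 (-c) fun k => by
    rw [Pi.neg_apply, abs_neg]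
    exact Finset.single_le_sum (f := fun k => |c k|) (fun k _ => abs_nonneg _) (Finset.mem_univ k)
  rw [hQ] at h5
  exact h5

variable {ι : Type} {W : ι → WeierstrassCurve (𝓞 ℚ)}

theorem forms (hmod : ∀ i, IsModular (W i)) :
    ∃ (M : ι → ℕ) (_ : ∀ i, NeZero (M i)) (f : ∀ i, Pool.Agent.Y722.RS.S2 (M i)),
      (∀ i, Pool.Agent.TH941.Hecke (f i)) ∧
      ∀ i, ∀ᶠ v : HeightOneSpectrum (𝓞 ℚ) in cofinite,
        Pool.Agent.W165.RS.ac (f i) (Pool.Agent.W540.BE.nm ℚ v) =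
          (Pool.Agent.W540.BE.trv (W i) v : ℂ) := by
  choose M hM f hf using hmod
  refine ⟨M, hM, f, fun i => ?_, fun i => (hf i).trace⟩
  exact ⟨(hf i).one, (hf i).real, (hf i).mul, (hf i).pow, (hf i).good, (hf i).bad⟩

theorem ne0 {V : WeierstrassCurve (𝓞 ℚ)} {n : ℕ}
    {ρ : Representation ℂ Gal(AlgebraicClosure ℚ/ℚ) (Fin n → ℂ)}
    {B : HeightOneSpectrum (𝓞 ℚ) → ℂ[X]} (h : IsEulerFactor V ρ B) (τ : ℝ)
    (v : HeightOneSpectrum (𝓞 ℚ)) : (B v).eval (((Pool.Agent.W540.BE.nm ℚ v : ℕ) : ℂ) ^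
      (-(((1 / 2 : ℝ) : ℂ) + 1 + τ * Complex.I : ℂ))) ≠ 0 := by
  rw [half]
  exact h.2 τ v

theorem single (hΔ : ∀ i, (W i).Δ ≠ 0) (hmod : ∀ i, IsModular (W i)) (i : ι) {κ : Type}
    [Fintype κ] (n : κ → ℕ)
    (ρ : ∀ k, Representation ℂ Gal(AlgebraicClosure ℚ/ℚ) (Fin (n k) → ℂ)) (τ : κ → ℝ)
    (B : κ → HeightOneSpectrum (𝓞 ℚ) → ℂ[X]) (hρ : ∀ k, IsArtin (ρ k))
    (hB : ∀ k, IsEulerFactor (W i) (ρ k) (B k)) :
    (∀ k, ∀ᶠ ε : ℝ in 𝓝[>] 0, eulerProduct (B k) (3 / 2 + τ k * Complex.I + ε) ≠ 0) ∧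
    (∀ k, (ρ k).IsIrreducible → (τ k ≠ 0 ∨ ∃ g, ((ρ k).character g).im ≠ 0) →
      ∀ η : ℝ, 0 < η → ∀ᶠ ε : ℝ in 𝓝[>] 0, |size (B k) (τ k) ε| ≤ 1 / Real.sqrt 2 + η) ∧
    (∀ k, (ρ k).IsIrreducible → τ k = 0 → 3 ≤ n k →
      ∀ U : Subgroup Gal(AlgebraicClosure ℚ/ℚ), U.Normal →
      IsOpen (U : Set Gal(AlgebraicClosure ℚ/ℚ)) → (∀ u ∈ U, ρ k u = 1) →
      ∀ η : ℝ, 0 < η → ∀ᶠ ε : ℝ in 𝓝[>] 0,
        |size (B k) (τ k) ε| ≤
          1 - ((n k : ℝ) - 2) ^ 2 / (2 * Nat.card (Gal(AlgebraicClosure ℚ/ℚ) ⧸ U)) + η) ∧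
    (∀ K : Finset κ, (∀ k ∈ K, (ρ k).IsIrreducible) →
      (∀ k ∈ K, ∀ l ∈ K, k ≠ l → τ k = τ l → IsEmpty ((ρ k).Equiv (ρ l))) →
      ∀ η : ℝ, 0 < η → ∀ᶠ ε : ℝ in 𝓝[>] 0, ∑ k ∈ K, size (B k) (τ k) ε ^ 2 ≤ 1 + η) ∧
    (∀ m : κ → ℤ, (∀ k, HasOrder (B k) (τ k) (m k)) →
      (∀ k, (ρ k).IsIrreducible →
        (τ k ≠ 0 ∨ (∃ g, ((ρ k).character g).im ≠ 0) ∨ 3 ≤ n k) → m k = 0) ∧
      (∀ K : Finset κ, (∀ k ∈ K, (ρ k).IsIrreducible) →
        (∀ k ∈ K, ∀ l ∈ K, k ≠ l → τ k = τ l → IsEmpty ((ρ k).Equiv (ρ l))) →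
        ∑ k ∈ K, |m k| ≤ 1)) := by
  obtain ⟨M, _, f, hf, hpt⟩ := forms hmod
  have h := Pool.Agent.Y677.SM.main ℚ (W i) (hΔ i)
    (Pool.Agent.Y677.SM.ms_newform (hf i) (W i) (hpt i)) n ρ (fun k => hρ k) τ B
    (fun k => (hB k).1) (fun k v => ne0 (hB k) (τ k) v) (fun k => eulerProduct (B k))
    (fun k s _ => rfl) (fun k => size (B k) (τ k)) (fun k ε => by rw [half]; rfl)
  rw [half] at h
  obtain ⟨h1, -, h3, h4, h5, h6⟩ := h
  refine ⟨h1, h3, h4, h5, fun m hm => ?_⟩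
  choose Λ hΛ1 hΛ2 hΛ3 using hm
  have hr : (1 / 2 : ℝ) + 1 = 3 / 2 := by norm_num
  obtain ⟨m', hm', -, h7, h8, -⟩ := h6 Λ fun k => ⟨hΛ1 k, by rw [hr]; exact hΛ2 k⟩
  have e : m' = m := by
    funext k
    have h9 := (hm' k).symm.trans (hΛ3 k)
    exact_mod_cast h9
  subst e
  exact ⟨h7, h8⟩

theorem joint (hΔ : ∀ i, (W i).Δ ≠ 0) (hmod : ∀ i, IsModular (W i))
    (hne : ∀ i j, i ≠ j → NotIsogenous (W i) (W j)) : JointInequality W := by
  obtain ⟨M, _, f, hf, hpt⟩ := forms hmod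
  intro κ _ n ρ B hρ hB S
  have h := Pool.Agent.Y149.CR.main W hΔ M f hf hpt hne n ρ (fun k => hρ k) B
    (fun i k => (hB i k).1) (fun i k τ v => ne0 (hB i k) τ v)
    (fun i k => eulerProduct (B i k)) (fun i k s _ => rfl) (fun i k τ ε => size (B i k) τ ε)
    (fun i k τ ε => by rw [half]; rfl)
  rw [half] at h
  obtain ⟨h1, h2⟩ := h
  refine ⟨fun C η hη => h2 S C η hη, fun m hm c => ?_⟩
  refine to_orders S (fun s k => size (B s.1 k) s.2) m
    (fun c => ∑ k, ∑ l, (c k * c l) * (Module.finrank ℂ ((ρ k).IntertwiningMap (ρ l)) : ℝ))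
    (fun C η hη => h2 S C η hη) (fun s hs k => orders (h1 s.1 k s.2) (hm s hs k)) (fun c => ?_) c
  simp only [Pi.neg_apply, neg_mul_neg]

theorem highDegree (hΔ : ∀ i, (W i).Δ ≠ 0) (hmod : ∀ i, IsModular (W i)) : HighDegree W := by
  intro i n ρ B hρ hirr hB τ
  obtain ⟨h1, h2, h3, -, h5⟩ := single hΔ hmod i (κ := Unit) (fun _ => n) (fun _ => ρ)
    (fun _ => τ) (fun _ => B) (fun _ => hρ) (fun _ => hB)
  exact ⟨h1 (), h2 () hirr, h3 () hirr, fun hc m hm => (h5 (fun _ => m) fun _ => hm).1 () hirr hc⟩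

theorem matching (hΔ : ∀ i, (W i).Δ ≠ 0) (hmod : ∀ i, IsModular (W i))
    (hne : ∀ i j, i ≠ j → NotIsogenous (W i) (W j)) : PartialMatching W := by
  classical
  refine ⟨fun i κ _ n ρ τ B hρ hirr hinq hB => ?_, fun n ρ B hρ hirr hB T m hm => ?_⟩
  · obtain ⟨-, -, -, h4, h5⟩ := single hΔ hmod i n ρ τ B hρ hB
    exact ⟨fun η hη => h4 Finset.univ (fun k _ => hirr k) (fun k _ l _ => hinq k l) η hη,
      fun m hm => (h5 m hm).2 Finset.univ (fun k _ => hirr k) fun k _ l _ => hinq k l⟩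
  · have hj : ∀ S : Finset (ι × ℝ), (∀ x ∈ S, x ∈ T) → ∀ c : ℝ,
        ∑ s ∈ S, (max (c * m s) 0) ^ 2 ≤ c * c := by
      intro S hS c
      have h := (joint hΔ hmod hne Unit (fun _ => n) (fun _ => ρ) (fun i _ => B i) (fun _ => hρ)
        (fun i _ => hB i) S).2 (fun s _ => m s) (fun s hs _ => hm s (hS s hs)) (fun _ => c)
      have e := Pool.Agent.W540.BE.finrank_end_irr ρ hirr
      simp only [Finset.univ_unique, Finset.sum_singleton] at h
      rw [e] at h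
      simpa using h
    have hone : ∀ x ∈ T, ∀ c : ℤ, c * c = 1 → c * m x ≤ 1 := by
      intro x hx c hc
      have h1 := hj {x} (by
        intro y hy
        rw [Finset.mem_singleton] at hy
        exact hy ▸ hx) c
      rw [Finset.sum_singleton] at h1
      have e1 : (c : ℝ) * c = 1 := by exact_mod_cast hc
      rw [e1] at h1
      by_contra h2
      push Not at h2
      have h3 : (2 : ℝ) ≤ (c : ℝ) * m x := by exact_mod_cast h2
      have h4 : (c : ℝ) * m x ≤ max ((c : ℝ) * m x) 0 := le_max_left _ _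
      nlinarith
    have htwo : ∀ x ∈ T, ∀ y ∈ T, ∀ c : ℤ, c * c = 1 → 0 < c * m x → 0 < c * m y → x = y := by
      intro x hx y hy c hc h1 h2
      by_contra hxy
      have h3 := hj {x, y} (by
        intro z hz
        rw [Finset.mem_insert, Finset.mem_singleton] at hz
        rcases hz with rfl | rfl
        · exact hx
        · exact hy) c
      rw [Finset.sum_pair hxy] at h3
      have e1 : (c : ℝ) * c = 1 := by exact_mod_cast hc
      rw [e1] at h3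
      have big : ∀ z : ι × ℝ, 0 < c * m z → 1 ≤ (max ((c : ℝ) * m z) 0) ^ 2 := by
        intro z hz
        have h4 : (1 : ℝ) ≤ (c : ℝ) * m z := by exact_mod_cast hz
        have h5 : (c : ℝ) * m z ≤ max ((c : ℝ) * m z) 0 := le_max_left _ _
        nlinarith
      have h4 := big x h1
      have h5 := big y h2
      linarith
    refine ⟨fun x hx => ?_, fun x hx y hy => ?_, fun x hx y hy => ?_⟩
    · have a1 := hone x hx 1 (by norm_num)
      have a2 := hone x hx (-1) (by norm_num)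
      rw [abs_le]
      constructor <;> linarith
    · refine htwo x hx.1 y hy.1 (-1) (by norm_num) ?_ ?_
      · have := hx.2
        linarith
      · have := hy.2
        linarith
    · refine htwo x hx.1 y hy.1 1 (by norm_num) ?_ ?_
      · have := hx.2
        linarith
      · have := hy.2
        linarith

end aux

/-- **All Artin twists of all modular elliptic curves over `ℚ` on the edge `Re s = 3/2`.**  Let `E_i`,
`i ∈ ι`, be modular elliptic curves over `ℚ` with integral Weierstrass equations `W_i`, no two of them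
isogenous.  Then `L(E_i ⊗ ρ, s)` has no zeros and no poles on this line for irreducible Artin
representations `ρ` of degree at least three (`HighDegree`); the exceptional pairs for the other
irreducible representations form a partial matching, at the point `3/2` (`PartialMatching`); and there is
a Bessel inequality for all curves, all heights and all virtual Artin representations
(`JointInequality`). -/
theorem result (ι : Type) (W : ι → WeierstrassCurve (𝓞 ℚ)) (hΔ : ∀ i, (W i).Δ ≠ 0)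
    (hmod : ∀ i, IsModular (W i)) (hne : ∀ i j, i ≠ j → NotIsogenous (W i) (W j)) :
    HighDegree W ∧ PartialMatching W ∧ JointInequality W :=
  ⟨highDegree hΔ hmod, matching hΔ hmod hne, joint hΔ hmod hne⟩

end Pool.Agent.Results.MP_148101_nt.ArtinTwistsOfModularCurves
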