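import Pool.Agent.U707.PT.Glob

/-!
# Chow motives with known Frobenius traces: the exact `L`-function

`M_ℓ` are the `ℓ`-adic realizations `H^i(M)` of a Chow motive over `ℚ`, `w = i`, and `W_j` are
finitely many systems of `ℓ`-adic representations of the Galois group of `ℚ` which are pure of
weight `i`, with integers `c_j`, such that `tr(Frob_q | M_ℓ) = ∑ c_j tr(Frob_q | W_j)` for all primes
`q` outside of a set of density zero (which may depend on `ℓ`). At every prime `p` the `W_j` have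
local factors `R_{j,p}` in `ℚ[T]` independent of `ℓ`, and those with `c_j > 0` satisfy the
monodromy-weight conjecture. Then at EVERY prime `p` the motive satisfies the monodromy-weight
conjecture and its local factor is the same rational polynomial `P_p = ∏ R_{j,p} ^ c_j` for all
`ℓ ≠ p`. So for every choice of the primes `ℓ_p` the `L`-function of the motive is
`∏ L(W_j, s) ^ c_j`, without any exceptional Euler factors.

The proof uses parts by helper858, helper750, helper49, helper690, helper263, helper399, helper61,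
helper962 (see `Pool.Agent.U707.PT.All`).
-/

set_option autoImplicit false

namespace Pool.Agent.Results.MP_148101_nt.ExactFactors

open Polynomial Pool.Agent.U707.PT

/-- **The exact `L`-function of a motive with known Frobenius traces.** -/
theorem result {κ : Type} [Fintype κ]
    (M : ∀ (ℓ : ℕ) [Fact ℓ.Prime], GalRep ℓ) (W : ∀ (ℓ : ℕ) [Fact ℓ.Prime], κ → GalRep ℓ)
    (i : ℤ) (c : κ → ℤ)
    (hM : ∀ (ℓ : ℕ) [Fact ℓ.Prime], (M ℓ).IsPure i)
    (hW : ∀ (ℓ : ℕ) [Fact ℓ.Prime] j, (W ℓ j).IsPure i)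
    (htr : ∀ (ℓ : ℕ) [Fact ℓ.Prime], ∃ B : Set ℕ, Thin B ∧ ∀ q, q.Prime → q ∉ B → ∀ Q φ,
      Above q Q → IsFrob q Q φ → (M ℓ).tr φ = ∑ j, (c j : ℚ_[ℓ]) * (W ℓ j).tr φ)
    (R : κ → ℕ → ℚ[X])
    (hloc : ∀ p, p.Prime → ∀ Q φ, Above p Q → IsFrob p Q φ → ∀ (ℓ : ℕ) [Fact ℓ.Prime], ℓ ≠ p →
      ∃ t, IsTame p Q φ t ∧ (∃ N, (M ℓ).IsMonodromy Q t N) ∧
        ∀ j, (∃ N, (W ℓ j).IsMonodromy Q t N) ∧
          (W ℓ j).IsLocalFactor Q φ ((R j p).map (algebraMap ℚ ℚ_[ℓ])) ∧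
          (0 < c j → (W ℓ j).Good p Q φ t i)) :
    ∃ P : ℕ → ℚ[X],
      (∀ p, p.Prime → ∀ Q φ, Above p Q → IsFrob p Q φ → ∀ (ℓ : ℕ) [Fact ℓ.Prime], ℓ ≠ p →
        (M ℓ).IsLocalFactor Q φ ((P p).map (algebraMap ℚ ℚ_[ℓ])) ∧
        ∃ t, IsTame p Q φ t ∧ (M ℓ).MonodromyWeight p Q φ t i) ∧
      (∀ p, p.Prime → P p * ∏ j, R j p ^ (-c j).toNat = ∏ j, R j p ^ (c j).toNat) ∧
      ∀ σ : ℝ,
        (∀ L : κ → ℂ → ℂ, (∀ j, IsLFunction (R j) σ (L j)) →
          IsLFunction P σ fun s => ∏ j, L j s ^ c j) ∧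
        ((∀ j, HasMeromorphic (R j) σ) → HasMeromorphic P σ) ∧
        ((∀ j, 0 ≤ c j ∧ HasEntire (R j) σ) → HasEntire P σ) := by
  classical
  obtain ⟨P, h1, h2⟩ := glob (μ := Unit) (fun ℓ _ _ => M ℓ) W (fun _ => i) (fun _ => i)
    (fun _ => 1) c (fun _ _ _ => rfl) (fun _ => rfl) (fun ℓ _ _ => hM ℓ) hW (by
      intro ℓ _
      obtain ⟨B, hB, h⟩ := htr ℓ
      refine ⟨B, hB, fun q hq hqB Q φ hQ hφ => ?_⟩
      rw [← h q hq hqB Q φ hQ hφ]
      simp) R () (by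
      intro p hp Q φ hQ hφ ℓ _ hℓ
      obtain ⟨t, ht, hMN, hWj⟩ := hloc p hp Q φ hQ hφ ℓ hℓ
      exact ⟨t, ht, fun _ => hMN, fun j => ⟨(hWj j).1, (hWj j).2.1, fun _ hc =>
        (hWj j).2.2 (by simpa using hc)⟩⟩)
  simp only [one_mul, Finset.filter_true] at h2
  refine ⟨P, h1, h2, fun σ => ⟨fun L hL => ?_, fun h => ?_, fun h => ?_⟩⟩
  · exact mero_prod Finset.univ h2 σ L fun j _ => hL j
  · exact hasMeromorphic_of Finset.univ h2 σ fun j _ => h j
  · exact hasEntire_of Finset.univ h2 σ (fun j _ => (h j).1) fun j _ => (h j).2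

end Pool.Agent.Results.MP_148101_nt.ExactFactors
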