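import Pool.Agent.U187.NT.Sub

/-!
# Tensor products of an arbitrary Chow motive with sums of newforms

Let `M` be any Chow motive over `ℚ` and `H = H^w(M)`, of dimension `N`.  Nothing is known about the
`L`-function `L(H, s)` to the left of the line `Re s = w/2 + 1` at the edge of the half plane of
absolute convergence, and even on this line its zeros and poles are not known.  Let `G_e`, `e ∈ ι`, be
motives of weight one over `ℚ` of rank at most `2 h` whose Galois representations are sums of those of
newforms of weight two (with trivial character) with arbitrary multiplicities and coefficient fields.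
Examples are the motives `h¹` of the curves of genus at most `h` whose Jacobian is isogenous over `ℚ` to
a product of abelian varieties with real multiplication (Ribet, Khare and Wintenberger), for instance
all curves of genus two with real multiplication or with split Jacobian, of the modular curves and of
their quotients; the motives `h¹(A_f)`; and the Tate twists of the odd cohomology of threefolds with
such intermediate Jacobians.  We prove that the `L`-functions of the motives
`M ⊗ G_{l_0} ⊗ ⋯ ⊗ G_{l_k}` behave on the whole line as conjectured for `100` percent of all tuples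
`l`: no pole and no zero.  The estimate has a power saving, is uniform in `M` except for the dimension
and contains all heights on the line at once.  Moreover there is ONE infinite subfamily which works for
all motives: there are only countably many Chow motives over `ℚ`, and the last part applies to the
sequence of all of them.

The result extends `Pool.Agent.Results.MP_148101_nt.EllipticTensors` (elliptic curves, that is `h = 1`
and rational coefficients).  The constant contains the maximum `V` of the scalar products
`⟨G_e, G_e⟩ = ∑_x m_e(x)²` (the rank of the endomorphism algebra) instead of the square of the rank.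
The definitions are in `Pool.Agent.U187.NT.Defs`, `Pool.Agent.U187.MF.Defs` (`IsNewforms`),
`Pool.Agent.Y149.TL.Defs` and `Pool.Agent.Y149.PK.Defs`.  The proof uses the general inequality for
families which are almost orthogonal at all heights from `Pool.Agent.Y149.TL` and the one-sided
estimates for pairs of newforms from `Pool.Agent.Y722.RS` and `Pool.Agent.Y149.CR` (starting files).
-/

set_option autoImplicit false

namespace Pool.Agent.Results.MP_148101_nt.NewformTensors

open Filter Topology Polynomial CongruenceSubgroup
open scoped MatrixGroups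
open Pool.Agent.Y149.CM (LFun)
open Pool.Agent.Y149.PK (tuples)
open Pool.Agent.Y149.TL (Motive HasOrder edge size)
open Pool.Agent.U187.MF (IsNewforms)
open Pool.Agent.U187.NT

/-- **Tensor products with sums of newforms.**  `f x`, `x ∈ Ω`, are pairwise different newforms of
weight two, for example all of them.  `G_e`, `e ∈ ι`, are motives over `ℚ` of weight one which are sums
of these newforms with multiplicities `m_e(x)`, `∑_x m_e(x) ≤ h` and `∑_x m_e(x)² ≤ V`, and at most `M`
members of the family have a newform in common with a given one.  `H` is the cohomology of a motive over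
`ℚ`, of weight `w` and rank `N` (only the eigenvalues of Frobenius at almost all primes matter).  For a
tuple `l = (l_0, …, l_k)` write `H_l = H ⊗ G_{l_0} ⊗ ⋯ ⊗ G_{l_k}`, of weight `w + k + 1`.
1. For every finite set `J` of indices, every finite set `Θ` of heights and every `η > 0`, for all
small `ε > 0`, the sum over all `l ∈ J^{k+1}` and `τ ∈ Θ` of the squares of
`log |L(H_l, (w+k+1)/2 + 1 + iτ + ε)| / log(1/ε)` is at most `2 M V N² (2h)^{2k} |J|^k + η`.
2. The sum of the squares of the orders `r(l, τ)` of `L(H_l, s)` at the points
`(w+k+1)/2 + 1 + iτ`, over any finite set `S` of pairs `(l, τ)`, `l ∈ J^{k+1}`, for which the order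
exists, is at most `2 M V N² (2h)^{2k} |J|^k`.  In particular for all but that many of the `|J|^{k+1}`
tuples the function `L(H_l, s)` has no zero and no pole on the whole edge line, as far as it continues
to a neighbourhood of a point of the line.
3. If `ι` is infinite, then for every sequence `H_0, H_1, …` of motives there is an infinite subset
`𝒥` of `ι` with finite subsets `F_0, F_1, …` such that for every `j`, every number `k` and every tuple
`l` of `k` different members of `𝒥`, not all of them in `F_j`, all orders of
`L(H_j ⊗ G_{l_0} ⊗ ⋯ ⊗ G_{l_{k-1}}, s)` on the edge line are `0`. -/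
theorem result {Ω : Type} (L : Ω → ℕ)
    (f : ∀ x, CuspForm (Gamma0 (L x) : Subgroup (GL (Fin 2) ℝ)) 2) (hf : IsNewforms L f)
    (ι : Type) (G : ι → Motive) (m : ι → Ω →₀ ℕ) (h V M : ℕ) (hG : IsNewformFamily f G m h V M) :
    (∀ (H : Motive) (k : ℕ) (J : Finset ι) (Θ : Finset ℝ)
      (B : (Fin (k + 1) → ι) → Nat.Primes → ℂ[X]),
      (∀ l, (∀ i, l i ∈ J) → IsLFactor H G (List.ofFn l) (B l)) → ∀ η : ℝ, 0 < η →
      ∀ᶠ ε : ℝ in 𝓝[>] 0,
        (∀ l ∈ tuples J (k + 1), ∀ τ ∈ Θ, LFun (B l) (edge (H.weight + (k + 1 : ℕ)) τ + ε) ≠ 0) ∧
        ∑ l ∈ tuples J (k + 1), ∑ τ ∈ Θ, size (H.weight + (k + 1 : ℕ)) (B l) τ ε ^ 2 ≤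
          2 * M * V * (H.rank : ℝ) ^ 2 * (2 * h) ^ (2 * k) * (J.card : ℝ) ^ k + η) ∧
    (∀ (H : Motive) (k : ℕ) (J : Finset ι) (B : (Fin (k + 1) → ι) → Nat.Primes → ℂ[X])
      (S : Finset ((Fin (k + 1) → ι) × ℝ)) (r : (Fin (k + 1) → ι) × ℝ → ℤ),
      (∀ x ∈ S, (∀ i, x.1 i ∈ J) ∧ IsLFactor H G (List.ofFn x.1) (B x.1) ∧
        HasOrder (H.weight + (k + 1 : ℕ)) (B x.1) x.2 (r x)) →
      ∑ x ∈ S, r x ^ 2 ≤
        2 * M * V * (H.rank : ℤ) ^ 2 * (2 * h) ^ (2 * k) * (J.card : ℤ) ^ k) ∧
    (Infinite ι → ∀ H : ℕ → Motive, ∃ 𝒥 : Set ι, 𝒥.Infinite ∧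
      ∀ j, ∃ F : Finset ι, (∀ x ∈ F, x ∈ 𝒥) ∧
        ∀ (k : ℕ) (l : Fin k → ι), Function.Injective l → (∀ i, l i ∈ 𝒥) → (∃ i, l i ∉ F) →
        ∀ B : Nat.Primes → ℂ[X], IsLFactor (H j) G (List.ofFn l) B →
        ∀ (τ : ℝ) (r : ℤ), HasOrder ((H j).weight + k) B τ r → r = 0) := by
  refine ⟨fun H k J Θ B hB η hη => tuple_mean hf hG H k J Θ hB hη,
    fun H k J B S r hS => tuple_order hf hG H k J S (fun x hx => (hS x hx).1)
      (fun x hx => (hS x hx).2.1) (fun x hx => (hS x hx).2.2), fun hι H => ?_⟩
  exact universal hf hG H

end Pool.Agent.Results.MP_148101_nt.NewformTensors
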