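import Pool.Agent.U692.TP.Mr

/-!
# Meromorphic continuation: motives of arbitrary schemes and the pieces of small complexity

For a choice of primes `ℓ_p ≠ p`, an arbitrary separated scheme `X` of finite type over `ℚ` and an integer `w` let

`L_w(X, s) = ∏_i L(gr^W_w H^i_c(X), s)^((-1)^i)`;

for a smooth projective `X` it is `L^w(M, s)^((-1)^w)` for the Chow motive `M = (X, 1, 0)`. `D.Mero X` is the
assertion that for all `w` the function `L_w(X, s)` has a meromorphic continuation to `ℂ`; for a smooth
projective variety `X` this is the first assertion of Q1 for the motives `(X, 1, r)`. The structure `FactorData`
consists of the Euler factors of the `L_w(X, s)`, and `IsKnownFactors` lists the known properties which are used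
(exact sequences of closed subschemes, which split on the graded pieces by the semisimplicity of the motives for
absolute Hodge cycles (Deligne, Jannsen); products with `𝔾_m`; convergence in a half-plane; nothing for `w < 0`).
`Resolution` is the theorem of Hironaka.

We show:

1. Meromorphic continuation depends only on the class in the Grothendieck group `K_0(Var_ℚ)`: it is true for `X` if
   and only if the class of `X` is in the subgroup generated by the classes of the schemes for which it is true.
2. For every `N ≥ 0` it is true for all smooth projective varieties of dimension at most `N` if and only if it is
   true for all schemes, of any dimension, singular or open, whose classes are in the subgroup generated by the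
   schemes for which it is true and by the class `Pieces N`: schemes of dimension at most `N`; affine
   schemes with an action of a diagonalizable group of complexity at most `N`; schemes given by any set of
   equations with at most two terms with coefficients in an algebra of dimension at most `N`; schemes given by
   equations over `ℚ` with `t_1, t_2, …` terms, `∑ max(t_i - 2, 0) ≤ N`; two out of three for closed-open
   decompositions; products with `𝔾_m` and the converse. For `N = 0` it is known (Artin `L`-functions,
   Brauer). So the meromorphic continuation for curves implies it for all hypersurfaces with three terms and for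
   all systems of two-term equations over curves, in any dimension.
3. The threshold: under the hypothesis for dimension at most `N` (no hypothesis for `N = 0`) and for every `t ≥ 0`
   the continuation for all schemes given by equations with at most `t` terms and coefficients in an algebra of
   dimension at most `N`, and for all schemes given by finite systems of bilinear equations which are sums of at
   most `t` monomials `x_i y_j`, is true for `t ≤ 2`, and is for `t ≥ 3` equivalent to the meromorphic continuation
   for all smooth projective varieties.

The stratifications are those of the library of helper738 (`U738/BN`: two terms; `U738/CX`: complexity), of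
helper483 (`U483/CX`: few terms) and of the starting library (`Q282`: three terms).
-/

set_option autoImplicit false

namespace Pool.Agent.Results.MP_148101_nt.SmallPieces

open Pool.Agent.Y116.UV Pool.Agent.U483.KM Pool.Agent.U738.BN Pool.Agent.U692.TP

theorem result (D : FactorData) (hD : IsKnownFactors D) (hR : Resolution) :
    (∀ X : Var ℚ, D.Mero X.1 ↔ cls X ∈ generated D.Mero) ∧
    (∀ N : ℕ, (∀ X : Sch ℚ, IsProjVar N X → D.Mero X) ↔
      ∀ X : Var ℚ, cls X ∈ generated (fun Y => D.Mero Y ∨ Pieces N Y) → D.Mero X.1) ∧
    (∀ N : ℕ, (∀ X : Sch ℚ, IsProjVar N X → D.Mero X) → ∀ t : ℕ, List.TFAE [
      ForTerms N t D.Mero,
      ForSystems ∅ t D.Mero,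
      t ≤ 2 ∨ ∀ X : Sch ℚ, FT True X → D.Mero X,
      t ≤ 2 ∨ ∀ X : Sch ℚ, IsProjVar ⊤ X → D.Mero X]) :=
  ⟨mero_iff_mem hD, mero_dim_iff hD hR,
    fun _ hN t => terms_tfae (clo_mero hD) hR (mero_pieces hD hR hN).1 t⟩

end Pool.Agent.Results.MP_148101_nt.SmallPieces
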